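import Mathlib

/-!
# Full groups of (partial) actions with levels: definitions
-/

set_option autoImplicit false

namespace Pool.Agent.H61.FG

/-- A group `Λ` with a length function `l` acts on a set `Y`, and the subset `X` carries equivalence
relations `E n`, `n = 0, 1, 2, …` (the levels), such that, whenever `m + l a ≤ n` and `x`, `y` lie
in one class of `E n`: if `a x` lies in `X`, then `a y` lies in `X` and in the class of `a x` for
`E m`. -/
structure IsLev {Y Λ : Type} [Group Λ] [MulAction Λ Y] (X : Set Y) (l : Λ → ℕ)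
    (E : ℕ → X → X → Prop) : Prop where
  one : l 1 = 0
  mul : ∀ a b, l (a * b) ≤ l a + l b
  inv : ∀ a, l a⁻¹ = l a
  eqv : ∀ n, Equivalence (E n)
  map : ∀ (a : Λ) (m n : ℕ), m + l a ≤ n → ∀ x y x' : X, E n x y → (x' : Y) = a • (x : Y) →
    ∃ y' : X, (y' : Y) = a • (y : Y) ∧ E m x' y'

variable {Y Λ : Type} [Group Λ] [MulAction Λ Y] {X : Set Y} {l : Λ → ℕ} {E : ℕ → X → X → Prop}

theorem IsLev.mono (h : IsLev X l E) {m n : ℕ} (hmn : m ≤ n) {x y : X} (hxy : E n x y) :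
    E m x y := by
  obtain ⟨y', hy', h1⟩ := h.map 1 m n (by rw [h.one]; omega) x y x hxy (one_smul Λ (x : Y)).symm
  rw [one_smul] at hy'
  rwa [Subtype.ext hy'] at h1

theorem IsLev.map' (h : IsLev X l E) {a : Λ} {m n : ℕ} (hmn : m + l a ≤ n) {x y x' y' : X}
    (hxy : E n x y) (hx' : (x' : Y) = a • (x : Y)) (hy' : (y' : Y) = a • (y : Y)) :
    E m x' y' := by
  obtain ⟨y'', hy'', h1⟩ := h.map a m n hmn x y x' hxy hx'
  rwa [Subtype.ext (hy''.trans hy'.symm)] at h1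

/-- `g` coincides, on each class of `E D`, with an element of `Λ` of length at most `D`. -/
def IsFull (l : Λ → ℕ) (E : ℕ → X → X → Prop) (D : ℕ) (g : X → X) : Prop :=
  ∀ x, ∃ a : Λ, l a ≤ D ∧ ∀ y, E D x y → (g y : Y) = a • (y : Y)

theorem IsFull.id (h : IsLev X l E) : IsFull l E 0 (id : X → X) :=
  fun _ => ⟨1, h.one.le, fun y _ => (one_smul Λ (y : Y)).symm⟩

theorem IsFull.mono (h : IsLev X l E) {D D' : ℕ} (hD : D ≤ D') {g : X → X}
    (hg : IsFull l E D g) : IsFull l E D' g := by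
  intro x
  obtain ⟨a, ha, hx⟩ := hg x
  exact ⟨a, ha.trans hD, fun y hy => hx y (h.mono hD hy)⟩

theorem IsFull.comp (h : IsLev X l E) {D D' : ℕ} {g g' : X → X} (hg : IsFull l E D g)
    (hg' : IsFull l E D' g') : IsFull l E (D + D') (g ∘ g') := by
  intro x
  obtain ⟨a, ha, hx⟩ := hg' x
  obtain ⟨b, hb, hx'⟩ := hg (g' x)
  refine ⟨b * a, (h.mul b a).trans (by omega), fun y hy => ?_⟩
  have h1 : (g' y : Y) = a • (y : Y) := hx y (h.mono (by omega) hy)
  have h2 : (g' x : Y) = a • (x : Y) := hx x ((h.eqv D').refl x)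
  have h3 : E D (g' x) (g' y) := h.map' (by omega) hy h2 h1
  rw [Function.comp_apply, hx' _ h3, h1, mul_smul]

theorem IsFull.inv (h : IsLev X l E) {D : ℕ} {g : Equiv.Perm X} (hg : IsFull l E D g) :
    IsFull l E (D + D) (g⁻¹ : Equiv.Perm X) := by
  intro x'
  obtain ⟨x, rfl⟩ := g.surjective x'
  obtain ⟨a, ha, hx⟩ := hg x
  refine ⟨a⁻¹, (h.inv a).le.trans (by omega), fun y' hy => ?_⟩
  have h1 : (g x : Y) = a • (x : Y) := hx x ((h.eqv D).refl x)
  have h0 : (x : Y) = a⁻¹ • (g x : Y) := by rw [h1, inv_smul_smul]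
  obtain ⟨y, hy1, hy2⟩ := h.map a⁻¹ D (D + D) (by rw [h.inv]; omega) _ _ _ hy h0
  have h3 : g y = y' := by
    apply Subtype.ext
    rw [hx _ hy2, hy1, smul_inv_smul]
  calc ((g⁻¹ : Equiv.Perm X) y' : Y) = ((g⁻¹ : Equiv.Perm X) (g y) : Y) := by rw [h3]
    _ = (y : Y) := congrArg Subtype.val (g.symm_apply_apply y)
    _ = a⁻¹ • (y' : Y) := hy1

/-- The full group: all bijections `g` of `X` such that for some `D` the map `g` coincides, on each
class of `E D`, with an element of `Λ` of length at most `D`. -/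
def Full (l : Λ → ℕ) (E : ℕ → X → X → Prop) (h : IsLev X l E) : Subgroup (Equiv.Perm X) where
  carrier := {g | ∃ D, IsFull l E D g}
  mul_mem' := fun ⟨_, hg⟩ ⟨_, hg'⟩ => ⟨_, hg.comp h hg'⟩
  one_mem' := ⟨0, IsFull.id h⟩
  inv_mem' := fun ⟨_, hg⟩ => ⟨_, hg.inv h⟩

/-- The graph of `a` on the class of `x` for `E n`. -/
def gr (E : ℕ → X → X → Prop) (n : ℕ) (a : Λ) (x : X) : Set (X × X) :=
  {q | E n x q.1 ∧ (q.2 : Y) = a • (q.1 : Y)}

/-- For infinitely many `n` there are at most `C n^k` different maps `y ↦ a y` from classes of `E n`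
to `X` with `l a ≤ n`. -/
def IsPoly (l : Λ → ℕ) (E : ℕ → X → X → Prop) (C k : ℕ) : Prop :=
  ∀ m : ℕ, ∃ n, m ≤ n ∧ ∃ F : Finset (Set (X × X)), F.card ≤ C * n ^ k ∧
    ∀ (a : Λ) (x x' : X), l a ≤ n → (x' : Y) = a • (x : Y) → gr E n a x ∈ F

end Pool.Agent.H61.FG
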