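import Pool.Agent.H48.RN.LpAct
import Pool.Agent.H61.FG.Defs
import Pool.Agent.H61.PX.Proper

/-!
# Full groups of polynomial type: charts, the function `S` and its energy
-/

set_option autoImplicit false

open scoped ENNReal

namespace Pool.Agent.H61.FG

open Pool.Agent.H48.RN (ep ep_mono ep_zero ep_neg)
open Pool.Agent.H61.PX (ep_ge)

variable {Y Λ : Type} [Group Λ] [MulAction Λ Y] {X : Set Y} {l : Λ → ℕ} {E : ℕ → X → X → Prop}
  {φ : ℕ → ℕ}

/-- Charts: a number and the graph of a map on a subset of `X`. -/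
abbrev Ch {Y : Type} (X : Set Y) : Type := ℕ × Set (X × X)

/-- The action on charts. -/
def act (g : X → X) (c : Ch X) : Ch X := (c.1, (fun q : X × X => (q.1, g q.2)) '' c.2)

/-- The chart of `a` on the class of `x` at level `φ i`. -/
def chart (φ : ℕ → ℕ) (E : ℕ → X → X → Prop) (i : ℕ) (a : Λ) (x : X) : Ch X :=
  (i, gr E (φ i) a x)

theorem act_act (g g' : X → X) (c : Ch X) : act g (act g' c) = act (fun x => g (g' x)) c := by
  unfold act
  simp only [Set.image_image]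

theorem act_id (c : Ch X) : act (fun x => x) c = c := by
  unfold act
  simp

theorem act_fst (g : X → X) (c : Ch X) : (act g c).1 = c.1 := rfl

/-- The values of the formal function. -/
def Val (φ : ℕ → ℕ) (l : Λ → ℕ) (E : ℕ → X → X → Prop) (c : Ch X) (r : ℝ) : Prop :=
  ∃ (i : ℕ) (a : Λ) (x x' : X), (x' : Y) = a • (x : Y) ∧ l a < φ i ∧ c = chart φ E i a x ∧
    r = 1 - (l a : ℝ) / φ i

/-- The formal function. -/
noncomputable def S (φ : ℕ → ℕ) (l : Λ → ℕ) (E : ℕ → X → X → Prop) (c : Ch X) : ℝ :=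
  sSup (insert 0 {r | Val φ l E c r})

theorem Val.le_one {c : Ch X} {r : ℝ} (h : Val φ l E c r) : r ≤ 1 := by
  obtain ⟨i, a, x, x', h0, h1, h2, rfl⟩ := h
  have : 0 ≤ (l a : ℝ) / φ i := by positivity
  linarith

private theorem bdd (c : Ch X) : BddAbove (insert 0 {r | Val φ l E c r}) := by
  refine ⟨1, ?_⟩
  rintro r (rfl | h)
  · exact zero_le_one
  · exact Val.le_one h

theorem S_nonneg (c : Ch X) : 0 ≤ S φ l E c := le_csSup (bdd c) (Or.inl rfl)

theorem le_S {c : Ch X} {r : ℝ} (h : Val φ l E c r) : r ≤ S φ l E c :=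
  le_csSup (bdd c) (Or.inr h)

theorem S_le {c : Ch X} {R : ℝ} (hR : 0 ≤ R) (h : ∀ r, Val φ l E c r → r ≤ R) :
    S φ l E c ≤ R := by
  refine csSup_le ⟨0, Or.inl rfl⟩ ?_
  rintro r (rfl | h1)
  · exact hR
  · exact h r h1

theorem exists_of_S_ne {c : Ch X} (h : S φ l E c ≠ 0) :
    ∃ (i : ℕ) (a : Λ) (x x' : X), (x' : Y) = a • (x : Y) ∧ l a < φ i ∧ c = chart φ E i a x := by
  by_contra hcon
  refine h (le_antisymm (S_le le_rfl ?_) (S_nonneg c))
  rintro r ⟨i, a, x, x', h0, h1, h2, -⟩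
  exact absurd ⟨i, a, x, x', h0, h1, h2⟩ hcon

/-- An element of the full group changes `S` little. -/
theorem S_act (h : IsLev X l E) (hφ : ∀ i, 2 ^ i ≤ φ i) {D : ℕ} {g : X → X}
    (hg : IsFull l E D g) (c : Ch X) : S φ l E c ≤ S φ l E (act g c) + D / φ c.1 := by
  have hφ0 : ∀ i, (0 : ℝ) < φ i := fun i => by
    have h1 : (1 : ℝ) ≤ φ i := by
      exact_mod_cast le_trans Nat.one_le_two_pow (hφ i)
    linarith
  have h0 := S_nonneg (φ := φ) (l := l) (E := E) (act g c)
  have hD : (0 : ℝ) ≤ D / φ c.1 := div_nonneg (Nat.cast_nonneg _) (hφ0 _).le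
  refine S_le (by linarith) ?_
  rintro r ⟨i, a, x, x', hx', h1, rfl, rfl⟩
  have hc1 : (chart φ E i a x).1 = i := rfl
  rw [hc1] at hD ⊢
  have h2i := hφ0 i
  by_cases h2 : D + l a < φ i
  · obtain ⟨b, hb, hx⟩ := hg x'
    have hba : (g x' : Y) = (b * a) • (x : Y) := by
      rw [hx x' ((h.eqv D).refl x'), hx', mul_smul]
    have h3 : act g (chart φ E i a x) = chart φ E i (b * a) x := by
      unfold act chart gr
      refine Prod.ext rfl ?_
      ext q
      constructor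
      · rintro ⟨⟨y, z⟩, ⟨hy, hz⟩, rfl⟩
        simp only at hy hz ⊢
        refine ⟨hy, ?_⟩
        have h4 : E D x' z := h.map' h2.le hy hx' hz
        show (g z : Y) = (b * a) • (y : Y)
        rw [hx _ h4, hz, mul_smul]
      · rintro ⟨hy, hz⟩
        obtain ⟨z, hz1, hz2⟩ := h.map a D (φ i) h2.le x q.1 x' hy hx'
        refine ⟨(q.1, z), ⟨hy, hz1⟩, ?_⟩
        have h4 : g z = q.2 := by
          apply Subtype.ext
          rw [hx _ hz2, hz1, hz, mul_smul]
        show (q.1, g z) = q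
        rw [h4]
    have h4 : l (b * a) < φ i := lt_of_le_of_lt ((h.mul b a).trans (by omega)) h2
    have h5 : 1 - (l (b * a) : ℝ) / φ i ≤ S φ l E (act g (chart φ E i a x)) :=
      le_S ⟨i, b * a, x, g x', hba, h4, h3, rfl⟩
    have h6 : (l (b * a) : ℝ) ≤ D + l a := by exact_mod_cast (h.mul b a).trans (by omega)
    have h7 : (l (b * a) : ℝ) / φ i ≤ D / φ i + l a / φ i := by
      rw [← add_div]
      exact div_le_div_of_nonneg_right h6 h2i.le
    linarith
  · have h3 : (φ i : ℝ) ≤ D + l a := by exact_mod_cast not_lt.1 h2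
    have h4 : 1 ≤ D / φ i + (l a : ℝ) / φ i := by
      rw [← add_div, le_div_iff₀ h2i]
      linarith
    linarith

/-- The choice of the levels. -/
theorem IsPoly.levels {C k : ℕ} (hP : IsPoly l E C k) : ∃ φ : ℕ → ℕ, (∀ i, 2 ^ i ≤ φ i) ∧
    ∃ F : ℕ → Finset (Set (X × X)), (∀ i, (F i).card ≤ C * φ i ^ k) ∧
      ∀ i (a : Λ) (x x' : X), l a ≤ φ i → (x' : Y) = a • (x : Y) → gr E (φ i) a x ∈ F i := by
  choose n hn F hF1 hF2 using hP
  exact ⟨fun i => n (2 ^ i), fun i => hn (2 ^ i), fun i => F (2 ^ i), fun i => hF1 (2 ^ i),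
    fun i => hF2 (2 ^ i)⟩

/-- The levels with few charts. -/
structure IsCnt (φ : ℕ → ℕ) (l : Λ → ℕ) (E : ℕ → X → X → Prop) (F : ℕ → Finset (Set (X × X)))
    (C k : ℕ) : Prop where
  pow : ∀ i, 2 ^ i ≤ φ i
  card : ∀ i, (F i).card ≤ C * φ i ^ k
  mem : ∀ i (a : Λ) (x x' : X), l a ≤ φ i → (x' : Y) = a • (x : Y) → gr E (φ i) a x ∈ F i

theorem half_energy {p : ℝ} (h : IsLev X l E) {F : ℕ → Finset (Set (X × X))} {C k : ℕ}
    (hP : IsCnt φ l E F C k) (hp : 1 ≤ p) (hpk : (k : ℝ) < p) {g : Equiv.Perm X} {D : ℕ}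
    (hg : IsFull l E D g) (hg' : IsFull l E D (g⁻¹ : Equiv.Perm X)) :
    ∑' c : Ch X, (by classical exact (if S φ l E c ≠ 0 then
      ep p (S φ l E (act g c) - S φ l E c) else 0)) ≠ ∞ := by
  classical
  have hφ1 : ∀ i, (1 : ℝ) ≤ φ i := fun i => by
    exact_mod_cast le_trans Nat.one_le_two_pow (hP.pow i)
  have hφ2 : ∀ i, (2 : ℝ) ^ i ≤ φ i := fun i => by exact_mod_cast hP.pow i
  have hdiff : ∀ c : Ch X, |S φ l E (act g c) - S φ l E c| ≤ D / φ c.1 := by
    intro c
    have h1 := S_act h hP.pow hg c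
    have h2 := S_act h hP.pow hg' (act g c)
    have h3 : act (g⁻¹ : Equiv.Perm X) (act g c) = c := by
      rw [act_act]
      have : (fun x => (g⁻¹ : Equiv.Perm X) (g x)) = fun x => x := by
        funext x
        exact g.symm_apply_apply x
      rw [this, act_id]
    rw [h3, act_fst] at h2
    rw [abs_le]
    constructor <;> linarith
  let F' : ℕ → Finset (Ch X) := fun i => (F i).image fun Γ => (i, Γ)
  have hterm : ∀ c : Ch X, (if S φ l E c ≠ 0 then ep p (S φ l E (act g c) - S φ l E c) else 0) ≤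
      ∑' i : ℕ, (if c ∈ F' i then ENNReal.ofReal ((D / φ i : ℝ) ^ p) else 0) := by
    intro c
    split_ifs with h1
    · obtain ⟨i, a, x, x', hx', ha, rfl⟩ := exists_of_S_ne h1
      refine le_trans ?_ (ENNReal.le_tsum i)
      have hm : chart φ E i a x ∈ F' i :=
        Finset.mem_image_of_mem _ (hP.mem i a x x' ha.le hx')
      rw [if_pos hm]
      exact ep_mono hp (hdiff _)
    · exact zero_le
  refine ne_top_of_le_ne_top ?_ (ENNReal.tsum_le_tsum hterm)
  rw [ENNReal.tsum_comm]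
  -- the geometric series
  set θ : ℝ := (1 / 2 : ℝ) ^ (p - k) with hθ
  have hθ0 : 0 ≤ θ := Real.rpow_nonneg (by norm_num) _
  have hθ1 : θ < 1 := Real.rpow_lt_one (by norm_num) (by norm_num) (by linarith)
  have hfin : ∑' i : ℕ, ENNReal.ofReal (C * (D : ℝ) ^ p * θ ^ i) ≠ ∞ :=
    ((summable_geometric_of_lt_one hθ0 hθ1).mul_left _).tsum_ofReal_ne_top
  refine ne_top_of_le_ne_top hfin (ENNReal.tsum_le_tsum fun i => ?_)
  rw [tsum_eq_sum (s := F' i) (fun c hc => if_neg hc)]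
  rw [Finset.sum_congr rfl (fun c hc => if_pos hc), Finset.sum_const, nsmul_eq_mul]
  have hφi := hφ1 i
  have hφpos : (0 : ℝ) < φ i := by linarith
  have hcard : (((F' i).card : ℕ) : ℝ) ≤ C * (φ i : ℝ) ^ k := by
    have h1 : (F' i).card ≤ C * φ i ^ k := Finset.card_image_le.trans (hP.card i)
    exact_mod_cast h1
  have hDp : (0 : ℝ) ≤ (D / φ i : ℝ) ^ p := Real.rpow_nonneg (by positivity) _
  rw [← ENNReal.ofReal_natCast, ← ENNReal.ofReal_mul (by positivity)]
  refine ENNReal.ofReal_le_ofReal ?_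
  calc (((F' i).card : ℕ) : ℝ) * (D / φ i : ℝ) ^ p
      ≤ (C * (φ i : ℝ) ^ k) * (D / φ i : ℝ) ^ p := mul_le_mul_of_nonneg_right hcard hDp
    _ = C * (D : ℝ) ^ p * ((φ i : ℝ) ^ ((k : ℝ) - p)) := by
        rw [Real.div_rpow (by positivity) (by positivity), Real.rpow_sub hφpos,
          Real.rpow_natCast]
        ring
    _ ≤ C * (D : ℝ) ^ p * θ ^ i := by
        refine mul_le_mul_of_nonneg_left ?_ (by positivity)
        have h1 : (φ i : ℝ) ^ ((k : ℝ) - p) ≤ ((2 : ℝ) ^ i) ^ ((k : ℝ) - p) :=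
          Real.rpow_le_rpow_of_nonpos (by positivity) (hφ2 i) (by linarith)
        refine h1.trans_eq ?_
        rw [hθ, ← Real.rpow_natCast, ← Real.rpow_natCast, ← Real.rpow_mul (by norm_num),
          ← Real.rpow_mul (by norm_num), one_div, Real.inv_rpow (by norm_num),
          ← Real.rpow_neg (by norm_num)]
        congr 1
        ring

theorem energy {p : ℝ} (h : IsLev X l E) {F : ℕ → Finset (Set (X × X))} {C k : ℕ}
    (hP : IsCnt φ l E F C k) (hp : 1 ≤ p) (hpk : (k : ℝ) < p) {v : Equiv.Perm X}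
    (hv : ∃ D, IsFull l E D v) :
    ∑' c : Ch X, ep p (S φ l E (act (v⁻¹ : Equiv.Perm X) c) - S φ l E c) ≠ ∞ := by
  classical
  obtain ⟨D, hD⟩ := hv
  have hv1 : IsFull l E (D + D) v := hD.mono h (by omega)
  have hv2 : IsFull l E (D + D) (v⁻¹ : Equiv.Perm X) := hD.inv h
  have h1 := half_energy h hP hp hpk (g := v⁻¹) hv2 (by rw [inv_inv]; exact hv1)
  have h2 := half_energy h hP hp hpk (g := v) hv1 hv2
  have e1 : ∀ c : Ch X, act v (act (v⁻¹ : Equiv.Perm X) c) = c := by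
    intro c
    rw [act_act]
    have : (fun x => v ((v⁻¹ : Equiv.Perm X) x)) = fun x => x := by
      funext x
      exact v.apply_symm_apply x
    rw [this, act_id]
  have e2 : ∀ c : Ch X, act (v⁻¹ : Equiv.Perm X) (act v c) = c := by
    intro c
    rw [act_act]
    have : (fun x => (v⁻¹ : Equiv.Perm X) (v x)) = fun x => x := by
      funext x
      exact v.symm_apply_apply x
    rw [this, act_id]
  let q : Ch X ≃ Ch X :=
    { toFun := act (v⁻¹ : Equiv.Perm X)
      invFun := act v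
      left_inv := e1
      right_inv := e2 }
  rw [← q.tsum_eq] at h2
  refine ne_top_of_le_ne_top (ENNReal.add_ne_top.2 ⟨h1, h2⟩) ?_
  rw [← ENNReal.tsum_add]
  refine ENNReal.tsum_le_tsum fun c => ?_
  have he : act v (q c) = c := e1 c
  have he' : act (v⁻¹ : Equiv.Perm X) c = q c := rfl
  rw [he, he']
  by_cases hg : S φ l E c ≠ 0
  · rw [if_pos hg]
    exact le_self_add
  · rw [if_neg hg, zero_add]
    by_cases hg' : S φ l E (q c) ≠ 0
    · rw [if_pos hg', ← ep_neg, neg_sub]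
    · rw [if_neg hg']
      rw [not_not] at hg hg'
      rw [hg, hg', sub_zero, ep_zero hp]

end Pool.Agent.H61.FG
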