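import Pool.Agent.H61.FG.Fun

/-!
# Full groups of polynomial type act properly on `ℓ^p`
-/

set_option autoImplicit false

open scoped ENNReal

namespace Pool.Agent.H61.FG

open Pool.Agent.H48.RN (ep ep_mono ep_zero ep_neg exists_action ActsProperly)
open Pool.Agent.H61.PX (ep_ge)

variable {Y Λ : Type} [Group Λ] [MulAction Λ Y] {X : Set Y} {l : Λ → ℕ} {E : ℕ → X → X → Prop}
  {φ : ℕ → ℕ}

/-- No identity chart of level `i` is destroyed by `g`. -/
def GoodAt (φ : ℕ → ℕ) (l : Λ → ℕ) (E : ℕ → X → X → Prop) (g : X → X) (i : ℕ) : Prop :=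
  ∀ x : X, S φ l E (act g (chart φ E i (1 : Λ) x)) ≠ 0

theorem exists_good {p : ℝ} (h : IsLev X l E) (hφ : ∀ i, 2 ^ i ≤ φ i) (hp : 1 ≤ p) {R : ℝ≥0∞}
    (hR : R ≠ ∞) : ∃ J : ℕ, ∀ g : X → X,
      ∑' c : Ch X, ep p (S φ l E (act g c) - S φ l E c) ≤ R → ∃ i ≤ J, GoodAt φ l E g i := by
  classical
  obtain ⟨J, hJ⟩ : ∃ J : ℕ, R < (J : ℝ≥0∞) := ENNReal.exists_nat_gt hR
  refine ⟨J, fun g hg => ?_⟩
  by_contra hcon
  push Not at hcon
  obtain ⟨x₀, -⟩ : ∃ x : X, S φ l E (act g (chart φ E 0 (1 : Λ) x)) = 0 := by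
    have h1 := hcon 0 (Nat.zero_le _)
    unfold GoodAt at h1
    push Not at h1
    exact h1
  have hbad : ∀ i : ℕ, ∃ x : X, i ≤ J → S φ l E (act g (chart φ E i (1 : Λ) x)) = 0 := by
    intro i
    by_cases hi : i ≤ J
    · have h1 := hcon i hi
      unfold GoodAt at h1
      push Not at h1
      obtain ⟨x, hx⟩ := h1
      exact ⟨x, fun _ => hx⟩
    · exact ⟨x₀, fun h => absurd h hi⟩
  choose x hx using hbad
  let Γ : ℕ → Ch X := fun i => chart φ E i (1 : Λ) (x i)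
  have hinj : Set.InjOn Γ (Finset.range J : Finset ℕ) := by
    intro i _ j _ hij
    exact congrArg Prod.fst hij
  have h1 : (J : ℝ≥0∞) ≤ R := by
    calc (J : ℝ≥0∞) = ∑ _i ∈ Finset.range J, 1 := by
          rw [Finset.sum_const, Finset.card_range, nsmul_eq_mul, mul_one]
      _ ≤ ∑ i ∈ Finset.range J, ep p (S φ l E (act g (Γ i)) - S φ l E (Γ i)) := by
          refine Finset.sum_le_sum fun i hi => ?_
          have hi' := (Finset.mem_range.1 hi).le
          have h7 : 0 < φ i := lt_of_lt_of_le (by positivity) (hφ i)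
          have h8 : (1 : ℝ) ≤ S φ l E (Γ i) :=
            le_S ⟨i, 1, x i, x i, (one_smul Λ (x i : Y)).symm, by rw [h.one]; exact h7, rfl,
              by rw [h.one]; simp⟩
          have h9 : S φ l E (act g (Γ i)) = 0 := hx i hi'
          have h10 := ep_ge hp zero_le_one (r := S φ l E (act g (Γ i)) - S φ l E (Γ i)) (by
            rw [h9, zero_sub, abs_neg]
            exact h8.trans (le_abs_self _))
          rwa [Real.one_rpow, ENNReal.ofReal_one] at h10
      _ = ∑ Δ ∈ (Finset.range J).image Γ, ep p (S φ l E (act g Δ) - S φ l E Δ) := by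
          rw [Finset.sum_image hinj]
      _ ≤ ∑' Δ : Ch X, ep p (S φ l E (act g Δ) - S φ l E Δ) := ENNReal.sum_le_tsum _
      _ ≤ R := hg
  exact absurd hJ (not_lt.2 h1)

theorem good_finite {F : ℕ → Finset (Set (X × X))} (h : IsLev X l E)
    {C k : ℕ} (hP : IsCnt φ l E F C k) (i : ℕ) : {g : Equiv.Perm X | GoodAt φ l E g i}.Finite := by
  classical
  -- the identity charts
  let I : Finset (Set (X × X)) := (F i).filter fun Γ => ∃ x : X, Γ = gr E (φ i) (1 : Λ) x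
  let Φ : Equiv.Perm X → (↥I → Set (X × X)) := fun g Γ =>
    (fun q : X × X => (q.1, g q.2)) '' Γ.1
  refine Set.Finite.of_finite_image (f := Φ) ?_ ?_
  · refine (Set.Finite.pi' (fun _ : ↥I => (F i).finite_toSet)).subset ?_
    rintro _ ⟨g, hg, rfl⟩ Γ
    obtain ⟨x, hx⟩ := (Finset.mem_filter.1 Γ.2).2
    obtain ⟨j, a, y, y', hy', ha, he⟩ := exists_of_S_ne (hg x)
    have hj : i = j := congrArg Prod.fst he
    subst hj
    have he2 : (fun q : X × X => (q.1, g q.2)) '' (gr E (φ i) (1 : Λ) x) = gr E (φ i) a y :=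
      congrArg Prod.snd he
    show (fun q : X × X => (q.1, g q.2)) '' Γ.1 ∈ (F i : Set (Set (X × X)))
    rw [hx, he2]
    exact hP.mem i a y y' ha.le hy'
  · intro g _ g' _ he
    ext1 y
    have hy1 : gr E (φ i) (1 : Λ) y ∈ F i :=
      hP.mem i 1 y y (by rw [h.one]; exact Nat.zero_le _) (one_smul Λ (y : Y)).symm
    have hy2 : gr E (φ i) (1 : Λ) y ∈ I := Finset.mem_filter.2 ⟨hy1, y, rfl⟩
    have h1 : (fun q : X × X => (q.1, g q.2)) '' (gr E (φ i) (1 : Λ) y) =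
        (fun q : X × X => (q.1, g' q.2)) '' (gr E (φ i) (1 : Λ) y) := congrFun he ⟨_, hy2⟩
    have h2 : (y, g y) ∈ (fun q : X × X => (q.1, g q.2)) '' (gr E (φ i) (1 : Λ) y) :=
      ⟨(y, y), ⟨(h.eqv _).refl y, (one_smul Λ (y : Y)).symm⟩, rfl⟩
    rw [h1] at h2
    obtain ⟨⟨y', z'⟩, ⟨-, hz⟩, he'⟩ := h2
    simp only [one_smul, Prod.mk.injEq] at hz he'
    have hz' : z' = y' := Subtype.ext hz
    rw [← he'.2, hz', he'.1]

theorem proper {p : ℝ} (h : IsLev X l E) {F : ℕ → Finset (Set (X × X))} {C k : ℕ}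
    (hP : IsCnt φ l E F C k) (hp : 1 ≤ p) {R : ℝ≥0∞} (hR : R ≠ ∞) :
    {g : Equiv.Perm X | ∑' c : Ch X, ep p (S φ l E (act g c) - S φ l E c) ≤ R}.Finite := by
  obtain ⟨J, hJ⟩ := exists_good h hP.pow hp hR
  refine ((Set.finite_Iic J).biUnion fun i _ => good_finite h hP i).subset ?_
  intro g hg
  obtain ⟨i, hi, hgi⟩ := hJ g hg
  simp only [Set.mem_iUnion]
  exact ⟨i, hi, hgi⟩

instance chAction (G : Subgroup (Equiv.Perm X)) : MulAction G (Ch X) where
  smul v c := act v.1 c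
  one_smul c := act_id c
  mul_smul v v' c := (act_act v.1 v'.1 c).symm

/-- **Full groups of polynomial type act properly on `ℓ^p`.** -/
theorem main (h : IsLev X l E) {C k : ℕ} (hP : IsPoly l E C k) (p : ℝ≥0∞) [Fact (1 ≤ p)]
    (hp : p ≠ ∞) (hpk : (k : ℝ) < p.toReal) :
    ActsProperly (Full l E h) (lp (fun _ : Ch X => ℝ) p) := by
  have hp1 : 1 ≤ p.toReal := by
    have h := Fact.out (p := (1 ≤ p))
    have := ENNReal.toReal_mono hp h
    simpa using this
  obtain ⟨φ, hφ, F, hF1, hF2⟩ := hP.levels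
  have hC : IsCnt φ l E F C k := ⟨hφ, hF1, hF2⟩
  set G := Full l E h with hG
  have hen : ∀ v : G, ∑' c : Ch X, ep p.toReal (S φ l E (v⁻¹ • c) - S φ l E c) ≠ ∞ := by
    intro v
    exact energy h hC hp1 hpk v.2
  obtain ⟨a, ha⟩ := exists_action (Γ := G) (ι := Ch X) hp (S φ l E) hen
  refine ⟨a, fun ξ R => ?_⟩
  have hfin := proper h hC hp1
    (R := ENNReal.ofReal ((R + 2 * ‖ξ‖) ^ p.toReal)) ENNReal.ofReal_ne_top
  refine Set.Finite.subset (hfin.preimage
    (Subtype.val_injective (p := fun v => v ∈ G)).injOn) ?_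
  have key : ∀ v : G, dist (a v ξ) ξ ≤ R →
      ∑' c : Ch X, ep p.toReal (S φ l E (v⁻¹ • c) - S φ l E c) ≤
        ENNReal.ofReal ((R + 2 * ‖ξ‖) ^ p.toReal) := by
    intro v hv
    have h3 : ‖a v 0‖ ≤ R + 2 * ‖ξ‖ := by
      have h4 : dist (a v 0) 0 ≤ dist (a v 0) (a v ξ) + dist (a v ξ) ξ + dist ξ 0 :=
        dist_triangle4 _ _ _ _
      rw [(a v).dist_eq, dist_zero_left, dist_zero_right, dist_zero_right] at h4
      linarith
    rw [ha]
    refine ENNReal.ofReal_le_ofReal ?_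
    exact Real.rpow_le_rpow (norm_nonneg _) h3 (by linarith)
  intro v hv
  have hv2 : dist (a v⁻¹ ξ) ξ ≤ R := by
    have h5 : dist (a v⁻¹ ξ) ξ = dist (a v ξ) ξ := by
      have h6 : a v (a v⁻¹ ξ) = ξ := by
        rw [← IsometryEquiv.mul_apply, ← map_mul, mul_inv_cancel, map_one]
        rfl
      rw [← (a v).dist_eq, h6, dist_comm]
    rw [h5]
    exact hv
  have := key v⁻¹ hv2
  rw [inv_inv] at this
  exact this

end Pool.Agent.H61.FG
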