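import Pool.Agent.H61.FG.Main

/-!
# Full groups of `ℤ^r`-subshifts of polynomial complexity
-/

set_option autoImplicit false

open Topology Filter
open scoped ENNReal

namespace Pool.Agent.H61.FG

open Pool.Agent.H48.RN (ActsProperly)

variable {r : ℕ} {Q : Type}

/-- The configurations: maps `ℤ^r → Q`. -/
def Conf (r : ℕ) (Q : Type) : Type := (Fin r → ℤ) → Q

/-- The shift action of `ℤ^r`: `(a • x)(i) = x(i + a)`. -/
instance : MulAction (Multiplicative (Fin r → ℤ)) (Conf r Q) where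
  smul a x := fun i => x (i + a.toAdd)
  one_smul x := by
    funext i
    show x (i + 0) = x i
    rw [add_zero]
  mul_smul a b x := by
    funext i
    show x (i + (a.toAdd + b.toAdd)) = x ((i + a.toAdd) + b.toAdd)
    rw [add_assoc]

theorem smul_apply (a : Multiplicative (Fin r → ℤ)) (x : Conf r Q) (i : Fin r → ℤ) :
    (a • x) i = x (i + a.toAdd) := rfl

/-- The sup norm on `ℤ^r`. -/
def nm (a : Fin r → ℤ) : ℕ := Finset.univ.sup fun i => (a i).natAbs

theorem nm_le {a : Fin r → ℤ} {n : ℕ} : nm a ≤ n ↔ ∀ i, (a i).natAbs ≤ n := by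
  rw [nm, Finset.sup_le_iff]
  exact ⟨fun h i => h i (Finset.mem_univ i), fun h i _ => h i⟩

theorem le_nm (a : Fin r → ℤ) (i : Fin r) : (a i).natAbs ≤ nm a := nm_le.1 le_rfl i

theorem nm_add (a b : Fin r → ℤ) : nm (a + b) ≤ nm a + nm b := by
  rw [nm_le]
  intro i
  exact (Int.natAbs_add_le _ _).trans (add_le_add (le_nm a i) (le_nm b i))

theorem nm_neg (a : Fin r → ℤ) : nm (-a) = nm a := by
  simp [nm]

/-- The length of the element `a` of the group `ℤ^r`, written multiplicatively. -/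
def sl (a : Multiplicative (Fin r → ℤ)) : ℕ := nm a.toAdd

/-- Two points of `X` with the same pattern on the cube `[-n, n]^r`. -/
def SP (X : Set (Conf r Q)) (n : ℕ) (x y : X) : Prop :=
  ∀ i : Fin r → ℤ, nm i ≤ n → (x : Conf r Q) i = (y : Conf r Q) i

/-- The levels of a shift invariant set of configurations. -/
theorem isLev_sub {X : Set (Conf r Q)}
    (hX : ∀ (a : Multiplicative (Fin r → ℤ)), ∀ x ∈ X, a • x ∈ X) : IsLev X (sl (r := r)) (SP X) where
  one := by simp [sl, nm]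
  mul a b := nm_add _ _
  inv a := nm_neg _
  eqv n := ⟨fun x i _ => rfl, fun h i hi => (h i hi).symm,
    fun h h' i hi => (h i hi).trans (h' i hi)⟩
  map a m n hmn x y x' hxy hx' := by
    refine ⟨⟨a • (y : Conf r Q), hX a _ y.2⟩, rfl, fun i hi => ?_⟩
    rw [hx', smul_apply]
    exact hxy _ ((nm_add _ _).trans (le_trans (Nat.add_le_add_right hi _) hmn))

/-- `X` has at most `C n^k` patterns on the cube `[-n, n]^r`, for infinitely many `n`. -/
def IsPC (X : Set (Conf r Q)) (C k : ℕ) : Prop :=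
  ∀ m : ℕ, ∃ n, m ≤ n ∧ ∃ S : Finset X, S.card ≤ C * n ^ k ∧ ∀ x : X, ∃ s ∈ S, SP X n x s

theorem isPoly_sub {X : Set (Conf r Q)}
    {C k : ℕ} (h : IsPC X C k) : IsPoly (sl (r := r)) (SP X) (3 ^ r * C) (r + k) := by
  classical
  intro m
  obtain ⟨n, hn, S, hS, hs⟩ := h (m + 1)
  refine ⟨n, by omega, ?_⟩
  set Bx : Finset (Fin r → ℤ) := Fintype.piFinset fun _ => Finset.Icc (-(n : ℤ)) n with hBx
  refine ⟨(Bx ×ˢ S).image fun q => gr (SP X) n (Multiplicative.ofAdd q.1) q.2, ?_, ?_⟩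
  · refine Finset.card_image_le.trans ?_
    rw [Finset.card_product]
    have h1 : Bx.card ≤ 3 ^ r * n ^ r := by
      rw [hBx, Fintype.card_piFinset, Finset.prod_const, Finset.card_univ, Fintype.card_fin,
        Int.card_Icc, ← mul_pow]
      refine Nat.pow_le_pow_left ?_ r
      omega
    calc Bx.card * S.card ≤ (3 ^ r * n ^ r) * (C * n ^ k) := Nat.mul_le_mul h1 hS
      _ = 3 ^ r * C * n ^ (r + k) := by ring
  · intro a x x' ha hx'
    obtain ⟨s, hsS, hxs⟩ := hs x
    refine Finset.mem_image.2 ⟨(a.toAdd, s), Finset.mem_product.2 ⟨?_, hsS⟩, ?_⟩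
    · rw [hBx, Fintype.mem_piFinset]
      intro i
      have h1 := (nm_le.1 ha) i
      rw [Finset.mem_Icc]
      have h2 : ((a.toAdd i).natAbs : ℤ) = |a.toAdd i| := Int.natCast_natAbs _
      have h3 : |a.toAdd i| ≤ (n : ℤ) := by
        rw [← h2]
        exact_mod_cast h1
      exact abs_le.1 h3
    · ext q
      simp only [gr, Set.mem_ofPred_eq, ofAdd_toAdd]
      refine and_congr_left fun _ => ⟨fun hq i hi => ?_, fun hq i hi => ?_⟩
      · exact (hxs i hi).trans (hq i hi)
      · exact (hxs i hi).symm.trans (hq i hi)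

/-- **The full group of a shift invariant set `X` of maps `ℤ^r → Q` with at most `C n^k` patterns
on the cubes `[-n, n]^r` (for infinitely many `n`) acts properly on `ℓ^p` for all `p > r + k`.** -/
theorem subshift {X : Set (Conf r Q)}
    (hX : ∀ (a : Multiplicative (Fin r → ℤ)), ∀ x ∈ X, a • x ∈ X) {C k : ℕ} (hC : IsPC X C k)
    (p : ℝ≥0∞) [Fact (1 ≤ p)] (hp : p ≠ ∞) (hpk : ((r + k : ℕ) : ℝ) < p.toReal) :
    ActsProperly (Full sl (SP X) (isLev_sub hX)) (lp (fun _ : Ch X => ℝ) p) :=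
  main (isLev_sub hX) (isPoly_sub hC) p hp hpk

instance [TopologicalSpace Q] : TopologicalSpace (Conf r Q) :=
  inferInstanceAs (TopologicalSpace ((Fin r → ℤ) → Q))

instance [TopologicalSpace Q] [CompactSpace Q] : CompactSpace (Conf r Q) :=
  inferInstanceAs (CompactSpace ((Fin r → ℤ) → Q))

/-- The neighbourhoods of a point of a subshift. -/
theorem exists_box [TopologicalSpace Q] [DiscreteTopology Q] {X : Set (Conf r Q)} (x : X)
    {U : Set X} (hU : U ∈ 𝓝 x) : ∃ n, ∀ y : X, SP X n x y → y ∈ U := by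
  obtain ⟨V, hV, hVU⟩ := mem_nhds_induced Subtype.val x U |>.1 hU
  obtain ⟨V', hV'⟩ : ∃ V' : Set ((Fin r → ℤ) → Q), V' = V := ⟨V, rfl⟩
  obtain ⟨x', hx'⟩ : ∃ x' : (Fin r → ℤ) → Q, x' = x.1 := ⟨x.1, rfl⟩
  have hV2 : V' ∈ 𝓝 x' := by
    rw [hV', hx']
    exact hV
  rw [nhds_pi, Filter.mem_pi] at hV2
  obtain ⟨I, hI, t, ht, hsub⟩ := hV2
  rw [hV'] at hsub
  rw [hx'] at ht
  refine ⟨hI.toFinset.sup nm, fun y hy => hVU (hsub ?_)⟩
  intro i hi
  have h1 : nm i ≤ hI.toFinset.sup nm := Finset.le_sup (f := nm) (hI.mem_toFinset.2 hi)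
  have h2 := hy i h1
  show y.1 i ∈ t i
  rw [← h2]
  exact mem_of_mem_nhds (ht i)

theorem isOpen_box [TopologicalSpace Q] [DiscreteTopology Q] {X : Set (Conf r Q)} (x : X)
    (n : ℕ) : {y : X | SP X n x y} ∈ 𝓝 x := by
  have hfin : {i : Fin r → ℤ | nm i ≤ n}.Finite := by
    refine (Set.Finite.pi' (t := fun _ : Fin r => Set.Icc (-(n : ℤ)) n)
      fun _ => Set.finite_Icc _ _).subset ?_
    intro i hi j
    have h1 := (nm_le.1 hi) j
    have h2 : ((i j).natAbs : ℤ) = |i j| := Int.natCast_natAbs _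
    exact abs_le.1 (by rw [← h2]; exact_mod_cast h1)
  have h1 : ∀ᶠ y : X in 𝓝 x, ∀ i ∈ {i : Fin r → ℤ | nm i ≤ n}, (x : Conf r Q) i = (y : Conf r Q) i := by
    rw [Filter.eventually_all_finite hfin]
    intro i _
    have hc : Continuous fun y : X => (y : Conf r Q) i :=
      (continuous_apply (A := fun _ : Fin r → ℤ => Q) i).comp continuous_subtype_val
    have h2 := hc.continuousAt (x := x) |>.eventually
      (show ∀ᶠ q in 𝓝 ((x : Conf r Q) i), q = (x : Conf r Q) i from by
        rw [nhds_discrete, eventually_pure])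
    exact h2.mono fun y hy => hy.symm
  exact h1.mono fun y hy i hi => hy i hi

/-- **The topological full group**: for a closed shift invariant set `X` of maps from `ℤ^r` to a
finite set a bijection of `X` which near each point of `X` is given by an element of `ℤ^r` is an
element of the full group. -/
theorem mem_full [TopologicalSpace Q] [DiscreteTopology Q] [Finite Q] {X : Set (Conf r Q)}
    (hX : ∀ (a : Multiplicative (Fin r → ℤ)), ∀ x ∈ X, a • x ∈ X) (hcl : IsClosed X)
    (g : Equiv.Perm X)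
    (hg : ∀ x : X, ∃ a : Multiplicative (Fin r → ℤ), ∀ᶠ y : X in 𝓝 x,
      (g y : Conf r Q) = a • (y : Conf r Q)) : g ∈ Full sl (SP X) (isLev_sub hX) := by
  classical
  have : CompactSpace Q := Finite.compactSpace
  have : CompactSpace X := isCompact_iff_compactSpace.1 hcl.isCompact
  have hl := isLev_sub hX
  have h1 : ∀ x : X, ∃ D : ℕ, ∃ a : Multiplicative (Fin r → ℤ), sl a ≤ D ∧ ∀ y : X, SP X D x y →
      (g y : Conf r Q) = a • (y : Conf r Q) := by
    intro x
    obtain ⟨a, ha⟩ := hg x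
    obtain ⟨n, hn⟩ := exists_box x ha
    exact ⟨max n (sl a), a, le_max_right _ _, fun y hy => hn y (hl.mono (le_max_left _ _) hy)⟩
  choose D a ha hD using h1
  obtain ⟨T, hT⟩ := CompactSpace.elim_nhds_subcover (fun x : X => {y : X | SP X (D x) x y})
    fun x => isOpen_box x (D x)
  refine ⟨T.sup D, fun x => ?_⟩
  have hx : x ∈ (⊤ : Set X) := trivial
  rw [← hT] at hx
  obtain ⟨t, ht, hxt⟩ := Set.mem_iUnion₂.1 hx
  have hDt : D t ≤ T.sup D := Finset.le_sup ht
  refine ⟨a t, (ha t).trans hDt, fun y hy => hD t y ?_⟩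
  exact (hl.eqv _).trans hxt (hl.mono hDt hy)

end Pool.Agent.H61.FG
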